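import Mathlib

/-!
# Tuples of forms without common complex zero: an open condition
-/

set_option autoImplicit false

namespace Pool.Agent.Helper17.PN

open MvPolynomial

variable {n d : ℕ}

theorem aeval_smul_hom {P : MvPolynomial (Fin n) ℝ} (hP : P.IsHomogeneous d) (c : ℂ)
    (z : Fin n → ℂ) : aeval (fun i => c * z i) P = c ^ d * aeval z P := by
  rw [aeval_def, aeval_def, eval₂_eq', eval₂_eq', Finset.mul_sum]
  refine Finset.sum_congr rfl fun s hs => ?_
  have h1 : s.degree = d := by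
    by_contra hne
    exact (mem_support_iff.1 hs) (hP.coeff_eq_zero hne)
  have h2 : ∏ i, (c * z i) ^ s i = c ^ d * ∏ i, z i ^ s i := by
    rw [← h1, Finsupp.degree_eq_sum, ← Finset.prod_pow_eq_pow_sum, ← Finset.prod_mul_distrib]
    exact Finset.prod_congr rfl fun i _ => mul_pow _ _ _
  rw [h2]
  ring

theorem norm_aeval_le {P : MvPolynomial (Fin n) ℝ} (hP : P.IsHomogeneous d) {δ : ℝ}
    (hδ : 0 ≤ δ) (hc : ∀ s, |coeff s P| ≤ δ) {z : Fin n → ℂ} (hz : ∀ i, ‖z i‖ ≤ 1) :
    ‖aeval z P‖ ≤ (((Finset.univ : Finset (Fin n)).finsuppAntidiag d).card : ℝ) * δ := by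
  rw [aeval_def, eval₂_eq']
  have hsub : P.support ⊆ (Finset.univ : Finset (Fin n)).finsuppAntidiag d := by
    intro s hs
    rw [Finset.mem_finsuppAntidiag]
    refine ⟨?_, Finset.subset_univ _⟩
    have h1 : s.degree = d := by
      by_contra hne
      exact (mem_support_iff.1 hs) (hP.coeff_eq_zero hne)
    rw [← h1, Finsupp.degree_eq_sum]
  calc ‖∑ s ∈ P.support, (algebraMap ℝ ℂ) (coeff s P) * ∏ i, z i ^ s i‖
      ≤ ∑ s ∈ P.support, ‖(algebraMap ℝ ℂ) (coeff s P) * ∏ i, z i ^ s i‖ := norm_sum_le _ _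
    _ ≤ ∑ _s ∈ P.support, δ := by
        refine Finset.sum_le_sum fun s _ => ?_
        rw [norm_mul, norm_prod]
        have h1 : ‖(algebraMap ℝ ℂ) (coeff s P)‖ = |coeff s P| := by
          rw [norm_algebraMap', Real.norm_eq_abs]
        have h2 : ∏ i, ‖z i ^ s i‖ ≤ 1 := by
          refine Finset.prod_le_one (fun i _ => norm_nonneg _) fun i _ => ?_
          rw [norm_pow]
          exact pow_le_one₀ (norm_nonneg _) (hz i)
        rw [h1]
        calc |coeff s P| * ∏ i, ‖z i ^ s i‖ ≤ δ * 1 :=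
              mul_le_mul (hc s) h2 (Finset.prod_nonneg fun i _ => norm_nonneg _) hδ
          _ = δ := mul_one _
    _ = (P.support.card : ℝ) * δ := by rw [Finset.sum_const, nsmul_eq_mul]
    _ ≤ _ := by
        refine mul_le_mul_of_nonneg_right ?_ hδ
        exact_mod_cast Finset.card_le_card hsub

/-- **The tuples of forms of degree `d` without common complex zero are an open set**, in the form
which is used for the proportion. -/
theorem nz_open (F₀ : Fin n → MvPolynomial (Fin n) ℝ) (hF₀ : ∀ i, (F₀ i).IsHomogeneous d)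
    (h₀ : ∀ z : Fin n → ℂ, z ≠ 0 → ∃ i, aeval z (F₀ i) ≠ 0) :
    ∃ ε : ℝ, 0 < ε ∧ ∀ F : Fin n → MvPolynomial (Fin n) ℝ, (∀ i, (F i).IsHomogeneous d) →
      ∀ lam : ℝ, 0 < lam → (∀ i s, |coeff s (F i) - lam * coeff s (F₀ i)| ≤ ε * lam) →
        ∀ z : Fin n → ℂ, z ≠ 0 → ∃ i, aeval z (F i) ≠ 0 := by
  have hcont : Continuous fun z : Fin n → ℂ => ∑ i, ‖aeval z (F₀ i)‖ := by
    refine continuous_finsetSum _ fun i _ => ?_
    refine Continuous.norm ?_
    have : (fun z : Fin n → ℂ => aeval z (F₀ i)) =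
        fun z : Fin n → ℂ => ∑ s ∈ (F₀ i).support, (algebraMap ℝ ℂ) (coeff s (F₀ i)) *
          ∏ j, z j ^ s j := by
      funext z
      rw [aeval_def, eval₂_eq']
    rw [this]
    fun_prop
  obtain ⟨δ, hδ, hmin⟩ := (isCompact_sphere (0 : Fin n → ℂ) 1).exists_forall_le'
    hcont.continuousOn (a := 0) (fun z hz => by
      have hz0 : z ≠ 0 := by
        rintro rfl
        simp at hz
      obtain ⟨i, hi⟩ := h₀ z hz0
      exact Finset.sum_pos' (fun j _ => norm_nonneg _) ⟨i, Finset.mem_univ _, norm_pos_iff.2 hi⟩)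
  set K : ℝ := (((Finset.univ : Finset (Fin n)).finsuppAntidiag d).card : ℝ) with hK
  have hK0 : 0 ≤ K := Nat.cast_nonneg _
  have hn0 : (0 : ℝ) ≤ n := Nat.cast_nonneg _
  have hden : 0 < (n : ℝ) * K + 1 := by positivity
  refine ⟨δ / (n * K + 1), div_pos hδ hden, fun F hF lam hlam hcl z hz => ?_⟩
  by_contra hcon
  push Not at hcon
  have hzn : 0 < ‖z‖ := norm_pos_iff.2 hz
  set w : Fin n → ℂ := fun i => ((‖z‖⁻¹ : ℝ) : ℂ) * z i with hw
  have hww : w = ((‖z‖⁻¹ : ℝ) : ℂ) • z := by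
    funext i
    simp [hw]
  have hwn : ‖w‖ = 1 := by
    rw [hww, norm_smul, Complex.norm_real, Real.norm_eq_abs, abs_of_pos (inv_pos.2 hzn),
      inv_mul_cancel₀ hzn.ne']
  have hw1 : ∀ i, ‖w i‖ ≤ 1 := fun i => (norm_le_pi_norm w i).trans hwn.le
  have hw0 : ∀ i, aeval w (F i) = 0 := by
    intro i
    rw [hw, aeval_smul_hom (hF i), hcon i, mul_zero]
  have hbd : ∀ i, lam * ‖aeval w (F₀ i)‖ ≤ K * (δ / (n * K + 1) * lam) := by
    intro i
    have h1 : (F i - C lam * F₀ i).IsHomogeneous d := by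
      refine (hF i).sub ?_
      simpa using (isHomogeneous_C (Fin n) lam).mul (hF₀ i)
    have h2 := norm_aeval_le h1 (δ := δ / (n * K + 1) * lam) (by positivity) (fun s => by
      rw [coeff_sub, coeff_C_mul]
      exact hcl i s) hw1
    rw [map_sub, map_mul, hw0 i, zero_sub, norm_neg, norm_mul, aeval_C, norm_algebraMap',
      Real.norm_eq_abs, abs_of_pos hlam] at h2
    exact h2
  have hsum : lam * δ ≤ n * (K * (δ / (n * K + 1) * lam)) := by
    calc lam * δ ≤ lam * ∑ i, ‖aeval w (F₀ i)‖ :=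
          mul_le_mul_of_nonneg_left (hmin w (by simp [hwn])) hlam.le
      _ = ∑ i, lam * ‖aeval w (F₀ i)‖ := Finset.mul_sum _ _ _
      _ ≤ ∑ _i : Fin n, K * (δ / (n * K + 1) * lam) := Finset.sum_le_sum fun i _ => hbd i
      _ = _ := by rw [Finset.sum_const, nsmul_eq_mul, Finset.card_univ, Fintype.card_fin]
  have hlt : n * (K * (δ / (n * K + 1) * lam)) < lam * δ := by
    have h1 : n * (K * (δ / (n * K + 1) * lam)) = (n * K) / (n * K + 1) * (lam * δ) := by
      field_simp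
    rw [h1]
    have h2 : (n * K) / (n * K + 1) < 1 := by
      rw [div_lt_one hden]
      linarith
    calc (n * K) / (n * K + 1) * (lam * δ) < 1 * (lam * δ) :=
          mul_lt_mul_of_pos_right h2 (mul_pos hlam hδ)
      _ = lam * δ := one_mul _
  linarith

end Pool.Agent.Helper17.PN
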