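import Pool.Agent.Helper26.PN.Defs
import Pool.Agent.Helper17.PN.Open

/-!
# Tuples of forms without common complex zero

`noZero_open`: this is an open condition. `noZero_perturb`: for arbitrarily small `τ > 0` the forms
`P_i + τ x_i ^ d` have no common zero (Macaulay's matrix).
-/

set_option autoImplicit false

namespace Pool.Agent.Helper17.PN

open MvPolynomial
open Pool.Agent.Helper26.PN (NoZero)

variable {m d : ℕ}

/-- The condition to have no common complex zero is open. -/
theorem noZero_open (F₀ : Fin (m + 1) → MvPolynomial (Fin (m + 1)) ℝ)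
    (hF₀ : ∀ i, (F₀ i).IsHomogeneous d) (h₀ : NoZero F₀) :
    ∃ ε : ℝ, 0 < ε ∧ ∀ (lam : ℝ), 0 < lam → ∀ F : Fin (m + 1) → MvPolynomial (Fin (m + 1)) ℝ,
      (∀ i, (F i).IsHomogeneous d) →
        (∀ i s, |coeff s (F i) - lam * coeff s (F₀ i)| ≤ ε * lam) → NoZero F := by
  obtain ⟨ε, hε, h⟩ := nz_open F₀ hF₀ fun z hz => by
    by_contra hcon
    push Not at hcon
    exact hz (h₀ z hcon)
  refine ⟨ε, hε, fun lam hlam F hF hcl z hz => ?_⟩
  by_contra hne
  obtain ⟨i, hi⟩ := h F hF lam hlam hcl z hne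
  exact hi (hz i)

/-- the exponents of degree `D` -/
abbrev Ex (n D : ℕ) : Type := {s : Fin n →₀ ℕ // s ∈ (Finset.univ : Finset (Fin n)).finsuppAntidiag D}

theorem Ex.degree {n D : ℕ} (α : Ex n D) : α.1.degree = D := by
  rw [Finsupp.degree_eq_sum]
  exact (Finset.mem_finsuppAntidiag.1 α.2).1

theorem mem_Ex {n D : ℕ} {s : Fin n →₀ ℕ} (h : s.degree = D) :
    s ∈ (Finset.univ : Finset (Fin n)).finsuppAntidiag D := by
  rw [Finset.mem_finsuppAntidiag]
  refine ⟨?_, Finset.subset_univ _⟩
  rw [← h, Finsupp.degree_eq_sum]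

/-- the value of a form as a sum over all the exponents -/
theorem aeval_eq_sum_Ex {n D : ℕ} {P : MvPolynomial (Fin n) ℝ} (hP : P.IsHomogeneous D)
    (z : Fin n → ℂ) :
    aeval z P = ∑ β : Ex n D, ((coeff β.1 P : ℝ) : ℂ) * ∏ i, z i ^ β.1 i := by
  rw [aeval_def, eval₂_eq', Finset.sum_coe_sort ((Finset.univ : Finset (Fin n)).finsuppAntidiag D)
    (fun s => ((coeff s P : ℝ) : ℂ) * ∏ i, z i ^ s i)]
  refine Finset.sum_subset (fun s hs => mem_Ex ?_) fun s _ hs => ?_
  · by_contra hne
    exact (mem_support_iff.1 hs) (hP.coeff_eq_zero hne)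
  · rw [notMem_support_iff.1 hs, map_zero, zero_mul]

theorem exists_large {d : ℕ} (α : Ex (m + 1) ((m + 1) * (d - 1) + 1)) :
    ∃ i : Fin (m + 1), Finsupp.single i d ≤ α.1 := by
  by_contra hcon
  push Not at hcon
  have h1 : ∀ i, α.1 i ≤ d - 1 := by
    intro i
    by_contra hlt
    exact hcon i (Finsupp.single_le_iff.2 (by omega))
  have h2 := α.degree
  rw [Finsupp.degree_eq_sum] at h2
  have h3 : ∑ i, α.1 i ≤ ∑ _i : Fin (m + 1), (d - 1) := Finset.sum_le_sum fun i _ => h1 i
  rw [Finset.sum_const, Finset.card_univ, Fintype.card_fin, smul_eq_mul] at h3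
  omega

/-- **Macaulay**: for arbitrarily small `τ > 0` the forms `P_i + τ x_i ^ d` have no common zero. -/
theorem noZero_perturb (_hd : 1 ≤ d) (P : Fin (m + 1) → MvPolynomial (Fin (m + 1)) ℝ)
    (hP : ∀ i, (P i).IsHomogeneous d) {δ : ℝ} (hδ : 0 < δ) :
    ∃ τ : ℝ, 0 < τ ∧ τ < δ ∧ NoZero fun i => P i + C τ * X i ^ d := by
  classical
  set D := (m + 1) * (d - 1) + 1 with hD
  choose ι hι using fun α : Ex (m + 1) D => exists_large α
  set M : Matrix (Ex (m + 1) D) (Ex (m + 1) D) (Polynomial ℝ) := Matrix.of fun α β =>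
    Polynomial.X * Polynomial.C (coeff β.1
      (monomial (α.1 - Finsupp.single (ι α) d) (1 : ℝ) * P (ι α))) +
      (if α = β then 1 else 0) with hM
  have hMs : ∀ s : ℝ, M.map (Polynomial.eval s) = Matrix.of fun α β : Ex (m + 1) D =>
      s * coeff β.1 (monomial (α.1 - Finsupp.single (ι α) d) (1 : ℝ) * P (ι α)) +
        (if α = β then 1 else 0) := by
    intro s
    ext α β
    simp only [hM, Matrix.map_apply, Matrix.of_apply, Polynomial.eval_add, Polynomial.eval_mul,
      Polynomial.eval_X, Polynomial.eval_C]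
    split_ifs
    · rw [Polynomial.eval_one]
    · rw [Polynomial.eval_zero]
  have hdet : ∀ s : ℝ, Polynomial.eval s M.det = (M.map (Polynomial.eval s)).det := fun s =>
    (Polynomial.evalRingHom s).map_det M
  have hne : M.det ≠ 0 := by
    intro h0
    have h1 := hdet 0
    rw [h0, Polynomial.eval_zero, hMs 0] at h1
    have h2 : (Matrix.of fun α β : Ex (m + 1) D =>
        (0 : ℝ) * coeff β.1 (monomial (α.1 - Finsupp.single (ι α) d) (1 : ℝ) * P (ι α)) +
        (if α = β then 1 else 0)) = 1 := by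
      ext α β
      rw [Matrix.of_apply, zero_mul, zero_add, Matrix.one_apply]
    rw [h2, Matrix.det_one] at h1
    exact zero_ne_one h1
  -- a good parameter
  have hinf : (Set.Ioi (1 / δ) \ {s : ℝ | Polynomial.IsRoot M.det s}).Infinite := by
    refine (Set.Ioi_infinite _).sdiff ?_
    exact Polynomial.finite_setOfPred_isRoot hne
  obtain ⟨s, hs1, hs2⟩ := hinf.nonempty
  have hδ' : 0 < 1 / δ := by positivity
  have hs0 : 0 < s := hδ'.trans hs1
  have hτ : 1 / s < δ := by
    rw [div_lt_iff₀ hs0]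
    have := (div_lt_iff₀ hδ).1 hs1
    linarith
  refine ⟨1 / s, by positivity, hτ, fun z hz => ?_⟩
  -- the matrix over `ℂ`
  set N : Matrix (Ex (m + 1) D) (Ex (m + 1) D) ℂ :=
    (M.map (Polynomial.eval s)).map Complex.ofRealHom with hN
  have hNdet : N.det ≠ 0 := by
    have h1 : N.det = Complex.ofRealHom (M.map (Polynomial.eval s)).det :=
      (Complex.ofRealHom.map_det _).symm
    rw [h1, ← hdet s]
    intro h2
    apply hs2
    exact Complex.ofReal_eq_zero.1 h2
  have hvec : N.mulVec (fun β : Ex (m + 1) D => ∏ i, z i ^ β.1 i) = 0 := by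
    funext α
    have hhom : (monomial (α.1 - Finsupp.single (ι α) d) (1 : ℝ) *
        (C s * P (ι α) + X (ι α) ^ d)).IsHomogeneous D := by
      have h1 : (α.1 - Finsupp.single (ι α) d).degree + d = D := by
        have h2 := congrArg Finsupp.degree (tsub_add_cancel_of_le (hι α))
        rw [map_add, Finsupp.degree_single, α.degree] at h2
        exact h2
      have h2 : (C s * P (ι α) + X (ι α) ^ d).IsHomogeneous d := by
        refine IsHomogeneous.add ?_ (isHomogeneous_X_pow _ _)
        simpa using (isHomogeneous_C (Fin (m + 1)) s).mul (hP (ι α))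
      have h3 := (isHomogeneous_monomial (R := ℝ) (σ := Fin (m + 1)) (1 : ℝ)
        (d := α.1 - Finsupp.single (ι α) d) rfl).mul h2
      rwa [h1] at h3
    have hval : aeval z (monomial (α.1 - Finsupp.single (ι α) d) (1 : ℝ) *
        (C s * P (ι α) + X (ι α) ^ d)) = 0 := by
      have h1 := hz (ι α)
      rw [map_add, map_mul, aeval_C, map_pow, aeval_X] at h1
      rw [map_mul, map_add, map_mul, map_pow, aeval_X, aeval_C]
      have h2 : (algebraMap ℝ ℂ) s * aeval z (P (ι α)) + z (ι α) ^ d = 0 := by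
        have h3 : (algebraMap ℝ ℂ) s * (algebraMap ℝ ℂ) (1 / s) = 1 := by
          rw [← map_mul, mul_one_div_cancel hs0.ne', map_one]
        linear_combination (algebraMap ℝ ℂ) s * h1 - z (ι α) ^ d * h3
      rw [h2, mul_zero]
    rw [aeval_eq_sum_Ex hhom] at hval
    rw [Matrix.mulVec, dotProduct, Pi.zero_apply, ← hval]
    refine Finset.sum_congr rfl fun β _ => ?_
    congr 1
    rw [hN, hMs s, Matrix.map_apply, Matrix.of_apply]
    show ((_ : ℝ) : ℂ) = _
    congr 1
    rw [mul_add, coeff_add]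
    congr 1
    · rw [mul_left_comm, coeff_C_mul]
    · rw [X_pow_eq_monomial, monomial_mul, one_mul, tsub_add_cancel_of_le (hι α), coeff_monomial]
      by_cases h : α = β
      · rw [if_pos h, if_pos (congrArg Subtype.val h)]
      · rw [if_neg h, if_neg fun h' => h (Subtype.ext h')]
  have h0 := Matrix.eq_zero_of_mulVec_eq_zero hNdet hvec
  funext i
  have h1 := congrFun h0 ⟨Finsupp.single i D, mem_Ex (Finsupp.degree_single _ _)⟩
  rw [Pi.zero_apply] at h1
  simp only at h1
  rw [Finset.prod_eq_single i, Finsupp.single_eq_same] at h1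
  · exact pow_eq_zero_iff (by omega) |>.1 h1
  · intro j _ hj
    rw [Finsupp.single_eq_of_ne hj, pow_zero]
  · intro h
    exact absurd (Finset.mem_univ _) h

end Pool.Agent.Helper17.PN
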